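import Mathlib
import Pool.Agent.Lib.MP_865e4a_co.Defs
import Pool.Agent.Lib.MP_865e4a_co.Main

/-!
# No edge-ordered graph has semisaturation function of order `n log n`
-/

namespace Pool.Agent.Results.MP_865e4a_co.NoNLogN

open Pool.Agent.Lib.MP_865e4a_co Asymptotics Filter

/-- No edge-ordered graph `G` satisfies `ssat_e(n, G) = Θ(n log n)`; moreover
`ssat_e(n, G) = o(n log n)` for every edge-ordered graph `G` with at least one edge. -/
theorem result :
    (∀ (g : ℕ) (G : EdgeOrderedGraph (Fin g)),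
      ¬ ((fun n : ℕ => (ssat n G : ℝ)) =Θ[atTop] fun n : ℕ => (n : ℝ) * Real.log n)) ∧
    ∀ (g : ℕ) (G : EdgeOrderedGraph (Fin g)), G.graph ≠ ⊥ →
      (fun n : ℕ => (ssat n G : ℝ)) =o[atTop] fun n : ℕ => (n : ℝ) * Real.log n :=
  ⟨fun _ G => not_isTheta_ssat G, fun _ G hG => isLittleO_ssat G hG⟩

end Pool.Agent.Results.MP_865e4a_co.NoNLogN
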